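import Pool.Agent.Lib.Helper9.ZiminWord

/-!
# MP_32f4b2_co, Q1, in the words of the problem file

A pattern is a nonempty finite word over an alphabet `V` of variables. For every `n ≥ 1`, every alphabet `V` of `n` variables (of which the pattern may use only some) and every pattern `p` over `V`:
`p` is abelian avoidable if and only if the Zimin word `Z n` is `p`-free in the abelian sense.
-/

set_option autoImplicit false

universe u v

namespace Pool.Agent.Results.MP_32f4b2_co.AbelianZimin

/-- The finite word `w` is an abelian instance of the pattern `p = p_1 p_2 ⋯ p_m`: `w = X_1 X_2 ⋯ X_m` with nonempty words `X_i`, where `X_i` and `X_j` are permutations of each other whenever `p_i = p_j`. -/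
def AbelianInstance {V : Type u} {A : Type v} (p : List V) (w : List A) : Prop :=
  ∃ X : Fin p.length → List A, (∀ i, X i ≠ []) ∧ (List.ofFn X).flatten = w ∧ ∀ i j, p.get i = p.get j → (X i).Perm (X j)

/-- The finite word `w` encounters `p` in the abelian sense: some factor of `w` is an abelian instance of `p`. -/
def Encounters {V : Type u} {A : Type v} (p : List V) (w : List A) : Prop := ∃ u : List A, u <:+: w ∧ AbelianInstance p u

/-- The finite factor of length `m` of the infinite word `x` which starts at the position `s`. -/
def factor {A : Type v} (x : ℕ → A) (s m : ℕ) : List A := (List.range m).map fun t => x (s + t)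

/-- The pattern `p` is abelian avoidable: for some finite alphabet `A` there is an infinite word over `A` without a finite factor that encounters `p` in the abelian sense. -/
def AbelianAvoidable {V : Type u} (p : List V) : Prop := ∃ (A : Type) (_ : Finite A) (x : ℕ → A), ∀ s m, ¬ Encounters p (factor x s m)

/-- The Zimin words: `Z 1 = 1`, `Z n = Z (n - 1) n Z (n - 1)` (and `Z 0` is empty). -/
def Z : ℕ → List ℕ
  | 0 => []
  | n + 1 => Z n ++ [n + 1] ++ Z n

theorem Z_eq (n : ℕ) : Z n = Pool.Agent.Lib.Helper9.Zimin.Z n := by
  induction n with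
  | zero => rfl
  | succ n ih => rw [Z, ih, Pool.Agent.Lib.Helper9.Zimin.Z_succ]

theorem flatten_map_flatMap {α β : Type*} (h : α → List β) (L : List (List α)) :
    (L.map (fun l => l.flatMap h)).flatten = L.flatten.flatMap h := by
  induction L with
  | nil => simp
  | cons l L ih => simp [List.flatMap_append, ih]

/-- being an abelian instance depends only on which positions of the pattern carry the same variable -/
theorem AbelianInstance.of_pattern {V : Type u} {W : Type v} {A : Type*} {p : List V} {q : List W} (hl : q.length = p.length)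
    (h : ∀ i j : Fin q.length, q.get i = q.get j → p.get (Fin.cast hl i) = p.get (Fin.cast hl j)) {w : List A}
    (hw : AbelianInstance p w) : AbelianInstance q w := by
  obtain ⟨X, h1, h2, h3⟩ := hw
  refine ⟨fun i => X (Fin.cast hl i), fun i => h1 _, ?_, fun i j hij => h3 _ _ (h i j hij)⟩
  rw [← h2]
  congr 1
  apply List.ext_getElem
  · simp [hl]
  · intro n h4 h5
    simp

/-- if a Zimin word encounters `p` then `p` is not abelian avoidable -/
theorem not_avoidable {V : Type u} {p : List V} {n : ℕ} (h : Encounters p (Z n)) : ¬ AbelianAvoidable p := by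
  rintro ⟨A, hA, x, hav⟩
  have := Fintype.ofFinite A
  obtain ⟨w, hw, f, hne, hflat, hperm⟩ := h
  obtain ⟨N, hN⟩ := Pool.Agent.Lib.Helper9.Zimin.zimin_unavoidable (α := A) n
  obtain ⟨h, hh, s, L, -, hZ⟩ := hN x
  have hinf : w.flatMap h <:+: factor x s L := by
    unfold factor
    rw [← hZ, ← Z_eq]
    obtain ⟨a, b, hab⟩ := hw
    exact ⟨a.flatMap h, b.flatMap h, by rw [← hab, List.flatMap_append, List.flatMap_append]⟩
  refine hav s L ⟨w.flatMap h, hinf, fun t => (f t).flatMap h, ?_, ?_, ?_⟩
  · intro t
    obtain ⟨y, hy⟩ := List.exists_mem_of_ne_nil _ (hne t)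
    obtain ⟨z, hz⟩ := List.exists_mem_of_ne_nil _ (hh y)
    exact List.ne_nil_of_mem (List.mem_flatMap.mpr ⟨y, hy, hz⟩)
  · rw [← hflat, ← flatten_map_flatMap, List.map_ofFn]
    rfl
  · intro a b hab
    exact (hperm a b hab).flatMap_right h

/-- **Q1 in full.** For every `n`, every alphabet `V` of variables and every word `p` over `V` with at most `n` distinct variables (so for `n ≥ 1`, every alphabet of `n` variables and every pattern over it, see
`over_alphabet`): `p` is abelian avoidable if and only if the Zimin word `Z n` is `p`-free in the abelian sense. -/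
theorem result : ∀ (n : ℕ) (V : Type u) (p : List V), {a | a ∈ p}.ncard ≤ n → (AbelianAvoidable p ↔ ¬ Encounters p (Z n)) := by
  classical
  intro n V p hn
  refine ⟨fun h1 h2 => not_avoidable h2 h1, fun h1 => ?_⟩
  set q : List ℕ := p.map fun a => p.idxOf a with hq
  have hl : q.length = p.length := by simp [hq]
  have hcard : q.toFinset.card ≤ n := by
    have h3 : q.toFinset = p.toFinset.image fun a => p.idxOf a := by
      ext a; simp [hq]
    have h4 : {a | a ∈ p} = (p.toFinset : Set V) := by ext a; simp
    rw [h3]
    refine Finset.card_image_le.trans ?_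
    rwa [h4, Set.ncard_coe_finset] at hn
  have hpq : ∀ i j : Fin q.length, q.get i = q.get j ↔ p.get (Fin.cast hl i) = p.get (Fin.cast hl j) := by
    intro i j
    simp only [hq, List.get_eq_getElem, List.getElem_map, Fin.val_cast]
    constructor
    · intro h3
      exact (List.idxOf_inj (List.getElem_mem _)).mp h3
    · intro h3
      rw [h3]
  have hqp : ∀ i j : Fin p.length, p.get i = p.get j → q.get (Fin.cast hl.symm i) = q.get (Fin.cast hl.symm j) := by
    intro i j h3
    rw [hpq]
    exact h3
  obtain ⟨K, B, lo, hK, h00, hlo1, hlomono, hloK, hnd, hcol⟩ := Pool.Agent.Lib.Helper9.Zimin.exists_matrix (q.length + 2)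
  have hKpos : 0 < K := by omega
  have hx : ∀ i m : ℕ, ¬ ∃ f : Fin q.length → List (Fin K), (∀ t, f t ≠ []) ∧
      (List.ofFn f).flatten = (List.range m).map (fun t => Pool.Agent.Lib.Helper9.Zimin.word K B hKpos (i + t)) ∧
        ∀ a b : Fin q.length, q.get a = q.get b → (f a).Perm (f b) := by
    rintro i m ⟨f, hne, hflat, hperm⟩
    obtain ⟨S, hS, hpS⟩ := Pool.Agent.Lib.Helper9.Zimin.reach_of_encounter hK h00 hcol q lo hlo1 hlomono hloK hnd hKpos i m f hne hflat hperm
    apply h1
    have hfr : ∃ w : List ℕ, w <:+: Pool.Agent.Lib.Helper9.Zimin.Z q.toFinset.card ∧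
        ∃ f : Fin q.length → List ℕ, (∀ t, f t ≠ []) ∧ (List.ofFn f).flatten = w ∧ ∀ a b : Fin q.length, q.get a = q.get b → (f a).Perm (f b) := by
      apply Pool.Agent.Lib.Helper9.Zimin.encounter_of_reach q S hS hpS
      intro y hy
      have := Pool.Agent.Lib.Helper9.Zimin.reach_subset hS hy
      rw [Finset.mem_image] at this
      obtain ⟨i, hi, rfl⟩ := this
      rw [Finset.mem_range] at hi
      simp [hi]
    obtain ⟨w, hw, hf⟩ := hfr
    refine ⟨w, ?_, AbelianInstance.of_pattern (p := q) (q := p) hl.symm hqp hf⟩
    rw [Z_eq]
    exact hw.trans (Pool.Agent.Lib.Helper9.Zimin.Z_prefix hcard).isInfix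
  refine ⟨Fin K, inferInstance, Pool.Agent.Lib.Helper9.Zimin.word K B hKpos, ?_⟩
  rintro s m ⟨w, ⟨a, b, hab⟩, hw⟩
  have hw' := AbelianInstance.of_pattern (p := p) (q := q) hl (fun i j h3 => (hpq i j).mp h3) hw
  have hlen : a.length + w.length + b.length = m := by
    have := congrArg List.length hab
    simp only [factor, List.length_append, List.length_map, List.length_range] at this
    omega
  have hwe : w = (List.range w.length).map fun t => Pool.Agent.Lib.Helper9.Zimin.word K B hKpos (s + a.length + t) := by
    have h5 := congrArg (fun l => (l.drop a.length).take w.length) hab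
    simp only [List.append_assoc] at h5
    rw [List.drop_left' rfl, List.take_left' rfl] at h5
    rw [h5]
    unfold factor
    apply List.ext_getElem
    · simp only [List.length_map, List.length_range, List.length_take, List.length_drop]
    · intro n h2 h3
      simp [add_assoc]
  obtain ⟨f, hf1, hf2, hf3⟩ := hw'
  exact hx (s + a.length) w.length ⟨f, hf1, hf2.trans hwe, hf3⟩

/-- the case in the words of the problem file: patterns over an alphabet of `n` variables -/
theorem over_alphabet (n : ℕ) (V : Type u) [Finite V] (hV : Nat.card V = n) (p : List V) : AbelianAvoidable p ↔ ¬ Encounters p (Z n) := by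
  refine result n V p ?_
  rw [← hV, ← Set.ncard_univ]
  exact Set.ncard_le_ncard (Set.subset_univ _) Set.finite_univ

end Pool.Agent.Results.MP_32f4b2_co.AbelianZimin
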