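import Pool.Agent.Lib.IncompactD.Main

/-!
# MP_d06690_lc, Q1 (Erdős 1969): the positive answer in ZFC

For every well-ordered set `V` of order type `ω₂²` there is a graph on `V` with chromatic number exactly `ℵ₁` such that `χ(G[W]) ≤ ℵ₀` for every `W ⊆ V` of order type less than `ω₂²`.
-/

set_option autoImplicit false

open Cardinal Ordinal

universe u

namespace Pool.Agent.Results.MP_d06690_lc.AnswerZFC

/-- The ordinal `ω₂`. -/
noncomputable abbrev omegaTwo : Ordinal.{u} := (Cardinal.aleph.{u} 2).ord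

/-- The chromatic number of a graph: the least cardinal of a set `C` of colours for which there is a proper colouring `V → C`. -/
noncomputable def chi {V : Type u} (G : SimpleGraph V) : Cardinal.{u} :=
  sInf {κ | ∃ C : Type u, Cardinal.mk C = κ ∧ Nonempty (G.Coloring C)}

/-- The order type of the subset `W` of the well-ordered set `V` (with the inherited order). -/
noncomputable def otype {V : Type u} [LinearOrder V] [WellFoundedLT V] (W : Set V) : Ordinal.{u} := Ordinal.type (fun a b : W => a < b)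

theorem chi_mem {V : Type u} (G : SimpleGraph V) : ∃ C : Type u, Cardinal.mk C = chi G ∧ Nonempty (G.Coloring C) :=
  csInf_mem (s := {κ | ∃ C : Type u, Cardinal.mk C = κ ∧ Nonempty (G.Coloring C)}) ⟨Cardinal.mk V, V, rfl, ⟨G.selfColoring⟩⟩

theorem chi_le {V : Type u} {G : SimpleGraph V} {C : Type u} (h : Nonempty (G.Coloring C)) : chi G ≤ Cardinal.mk C :=
  csInf_le' ⟨C, rfl, h⟩

theorem chi_le_aleph0 {V : Type u} {G : SimpleGraph V} (h : Nonempty (G.Coloring ℕ)) : chi G ≤ ℵ₀ := by
  obtain ⟨c⟩ := h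
  have h1 : Nonempty (G.Coloring (ULift.{u} ℕ)) :=
    ⟨SimpleGraph.Coloring.mk (fun v => ULift.up (c v)) (fun {v w} hvw heq => c.valid hvw (congrArg ULift.down heq))⟩
  refine (chi_le h1).trans ?_
  simp

/-- **The positive answer to Q1, in ZFC.** For every well-ordered set `V` of order type `ω₂²` (in any universe) there is a graph `G` on `V` with `χ(G) = ℵ₁` and `χ(G[W]) ≤ ℵ₀` for every `W ⊆ V` whose order type is less
than `ω₂²`. -/
theorem result (V : Type u) [LinearOrder V] [WellFoundedLT V] (hV : Ordinal.type (fun a b : V => a < b) = omegaTwo.{u} ^ 2) :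
    ∃ G : SimpleGraph V, chi G = Cardinal.aleph 1 ∧ ∀ W : Set V, otype W < omegaTwo.{u} ^ 2 → chi (G.induce W) ≤ ℵ₀ := by
  obtain ⟨G0, ⟨c1⟩, h0, hS⟩ := Pool.Agent.Results.MP_d06690_lc.Reduction.Q1_of_incompact Pool.Agent.Lib.IncompactD.incompact
  -- the order isomorphism
  have hl : Ordinal.lift.{u} ((Cardinal.aleph.{0} 2).ord ^ 2) = omegaTwo.{u} ^ 2 := by
    rw [pow_two, pow_two, Ordinal.lift_mul, Cardinal.lift_ord, Cardinal.lift_aleph]
    norm_num
  obtain ⟨e⟩ : Nonempty ((fun a b : V => a < b) ≃r (fun a b : Set.Iio ((Cardinal.aleph.{0} 2).ord ^ 2) => a < b)) := by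
    rw [← Ordinal.lift_type_eq.{u, 1, 0}, hV, ← hl]
    have h1 : Ordinal.type (fun a b : Set.Iio ((Cardinal.aleph.{0} 2).ord ^ 2) => a < b) = Ordinal.lift.{1} ((Cardinal.aleph.{0} 2).ord ^ 2) :=
      Ordinal.type_lt_Iio _
    rw [h1, Ordinal.lift_lift, Ordinal.lift_lift]
  have helt : ∀ a b : V, e a < e b ↔ a < b := fun a b => e.map_rel_iff'
  refine ⟨G0.comap e, ?_, fun W hW => ?_⟩
  · -- the chromatic number
    apply le_antisymm
    · obtain ⟨C, hC⟩ : ∃ C : Type u, Cardinal.mk C = Cardinal.aleph 1 := ⟨(Cardinal.aleph.{u} 1).out, Cardinal.mk_out _⟩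
      obtain ⟨i⟩ : Nonempty (Set.Iio (Cardinal.aleph.{0} 1).ord ↪ C) := by
        rw [← Cardinal.lift_mk_le'.{1, u}, hC, Cardinal.mk_Iio_ordinal]
        simp
      rw [← hC]
      refine chi_le ⟨SimpleGraph.Coloring.mk (fun v => i (c1 (e v))) ?_⟩
      intro v w hvw heq
      exact c1.valid hvw (i.injective heq)
    · by_contra hlt
      push Not at hlt
      obtain ⟨C, hC, ⟨c⟩⟩ := chi_mem (G0.comap e)
      rw [← hC] at hlt
      have hcount : Countable C := by
        rw [← Cardinal.mk_le_aleph0_iff]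
        have h2 : Cardinal.aleph.{u} 1 = Order.succ ℵ₀ := by
          rw [← Cardinal.aleph_zero, Cardinal.succ_aleph, zero_add]
        rw [h2] at hlt
        exact Order.lt_succ_iff.mp hlt
      obtain ⟨i, hi⟩ := hcount
      refine h0.false (SimpleGraph.Coloring.mk (fun v => i (c (e.symm v))) ?_)
      intro v w hvw heq
      refine c.valid (v := e.symm v) (w := e.symm w) ?_ (hi heq)
      show G0.Adj (e (e.symm v)) (e (e.symm w))
      rw [e.apply_symm_apply, e.apply_symm_apply]
      exact hvw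
  · -- the small sets
    apply chi_le_aleph0
    have hγ : ∃ γ < (Cardinal.aleph.{0} 2).ord ^ 2, Ordinal.lift.{u} γ = otype W := by
      rw [← hl] at hW
      exact Ordinal.lt_lift_iff.mp hW
    obtain ⟨γ, hγ, hγW⟩ := hγ
    have hty : ∀ x : W, ∃ a < γ, Ordinal.lift.{u} a = Ordinal.typein (fun a b : W => a < b) x := by
      intro x
      have h1 := Ordinal.typein_lt_type (fun a b : W => a < b) x
      change _ < otype W at h1
      rw [← hγW] at h1
      exact Ordinal.lt_lift_iff.mp h1
    choose a ha1 ha2 using hty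
    obtain ⟨c⟩ := hS (e '' W) ⟨γ, hγ, fun x => a ⟨e.symm x.1, by
      obtain ⟨w, hw, hx⟩ := x.2
      rw [← hx, e.symm_apply_apply]
      exact hw⟩, by
        intro x y hxy
        rw [← Ordinal.lift_lt.{u, 0}, ha2, ha2, Ordinal.typein_lt_typein]
        show e.symm x.1 < e.symm y.1
        rw [← helt, e.apply_symm_apply, e.apply_symm_apply]
        exact hxy, fun x => ha1 _⟩
    refine ⟨SimpleGraph.Coloring.mk (fun v : W => c ⟨e v.1, v.1, v.2, rfl⟩) ?_⟩
    intro v w hvw heq
    exact c.valid (v := ⟨e v.1, v.1, v.2, rfl⟩) (w := ⟨e w.1, w.1, w.2, rfl⟩) hvw heq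

end Pool.Agent.Results.MP_d06690_lc.AnswerZFC
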