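import Mathlib

/-!
# Möbius transformations of the disc and SL(2, R)

For MP_b0512f_an: every Möbius transformation which maps the unit disc onto itself is conjugate by the Cayley transform to the action of an element of `SL(2, ℝ)` on the upper half-plane.
-/

set_option autoImplicit false

open Complex
open scoped ComplexConjugate MatrixGroups UpperHalfPlane

namespace Pool.Agent.H27F

/-- The unit disc. -/
abbrev Dsc : Type := {z : ℂ // ‖z‖ < 1}

/-- the inverse Cayley transform -/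
noncomputable def ci (w : ℂ) : ℂ := I * (1 + w) / (1 - w)

/-- the Cayley transform -/
noncomputable def cy (z : ℂ) : ℂ := (z - I) / (z + I)

lemma one_sub_ne {w : ℂ} (hw : ‖w‖ < 1) : 1 - w ≠ 0 := by
  intro h
  have : w = 1 := by linear_combination -h
  rw [this] at hw
  simp at hw

lemma add_I_ne {z : ℂ} (hz : 0 < z.im) : z + I ≠ 0 := by
  intro h
  have := congrArg Complex.im h
  simp at this
  linarith

lemma ci_im (w : ℂ) : (ci w).im = (1 - ‖w‖ ^ 2) / ‖1 - w‖ ^ 2 := by
  unfold ci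
  rw [← Complex.normSq_eq_norm_sq, ← Complex.normSq_eq_norm_sq, Complex.div_im]
  rcases eq_or_ne (Complex.normSq (1 - w)) 0 with h | h
  · simp [h]
  · field_simp
    simp [Complex.normSq_apply]
    ring

lemma ci_im_pos {w : ℂ} (hw : ‖w‖ < 1) : 0 < (ci w).im := by
  rw [ci_im]
  have h1 : 0 < 1 - ‖w‖ ^ 2 := by nlinarith [norm_nonneg w]
  have h2 : 0 < ‖1 - w‖ := norm_pos_iff.mpr (one_sub_ne hw)
  positivity

lemma cy_norm {z : ℂ} (hz : 0 < z.im) : ‖cy z‖ < 1 := by
  unfold cy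
  rw [norm_div, div_lt_one (norm_pos_iff.mpr (add_I_ne hz))]
  apply lt_of_pow_lt_pow_left₀ 2 (norm_nonneg _)
  rw [← Complex.normSq_eq_norm_sq, ← Complex.normSq_eq_norm_sq]
  simp [Complex.normSq_apply]
  nlinarith

lemma cy_ci {w : ℂ} (hw : ‖w‖ < 1) : cy (ci w) = w := by
  have h1 := one_sub_ne hw
  have h2 := add_I_ne (ci_im_pos hw)
  unfold cy
  rw [div_eq_iff h2]
  unfold ci
  field_simp
  ring

lemma ci_cy {z : ℂ} (hz : 0 < z.im) : ci (cy z) = z := by
  have h1 := add_I_ne hz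
  have h2 := one_sub_ne (cy_norm hz)
  unfold ci
  rw [div_eq_iff h2]
  unfold cy
  field_simp
  ring

/-- the upper half-plane is the disc -/
noncomputable def eD : ℍ ≃ Dsc where
  toFun z := ⟨cy z, cy_norm z.im_pos⟩
  invFun w := ⟨ci w.1, ci_im_pos w.2⟩
  left_inv z := by
    apply UpperHalfPlane.ext
    exact ci_cy z.im_pos
  right_inv w := by
    apply Subtype.ext
    exact cy_ci w.2

lemma eD_coe (z : ℍ) : ((eD z : Dsc) : ℂ) = cy z := rfl

lemma eD_symm_coe (w : Dsc) : ((eD.symm w : ℍ) : ℂ) = ci w.1 := rfl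

lemma continuous_eD : Continuous eD := by
  apply Continuous.subtype_mk
  unfold cy
  exact Continuous.div (by fun_prop) (by fun_prop) fun z => add_I_ne z.im_pos

/-- the algebra: a matrix of determinant `1` which preserves the norms on the unit circle -/
lemma su_of_norm {a b c d : ℂ} (hdet : a * d - b * c = 1) (h : ∀ z : ℂ, ‖z‖ = 1 → ‖a * z + b‖ = ‖c * z + d‖) (h0 : ‖b‖ < ‖d‖) :
    d = conj a ∧ c = conj b ∧ normSq a - normSq b = 1 := by
  have hsq : ∀ z : ℂ, ‖z‖ = 1 → normSq (a * z + b) = normSq (c * z + d) := by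
    intro z hz
    rw [Complex.normSq_eq_norm_sq, Complex.normSq_eq_norm_sq, h z hz]
  have e1 := hsq 1 (by simp)
  have e2 := hsq (-1) (by simp)
  have e3 := hsq I (by simp)
  have e0 : normSq b < normSq d := by
    rw [Complex.normSq_eq_norm_sq, Complex.normSq_eq_norm_sq]
    exact pow_lt_pow_left₀ h0 (norm_nonneg _) two_ne_zero
  have E23 : a * conj b = c * conj d := by
    simp [Complex.normSq_apply] at e1 e2 e3
    apply Complex.ext
    · simp
      linarith
    · simp
      linarith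
  have E1 : normSq a + normSq b = normSq c + normSq d := by
    simp [Complex.normSq_apply] at e1 e2 ⊢
    linarith
  set lam : ℝ := normSq d - normSq b with hlam
  have hlam0 : 0 < lam := by rw [hlam]; linarith
  have hlam' : normSq a - normSq c = lam := by rw [hlam]; linarith
  have hac : (lam : ℂ) = conj a * a - conj c * c := by
    rw [← hlam', Complex.ofReal_sub, Complex.normSq_eq_conj_mul_self, Complex.normSq_eq_conj_mul_self]
  have hdb : (lam : ℂ) = conj d * d - conj b * b := by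
    rw [hlam, Complex.ofReal_sub, Complex.normSq_eq_conj_mul_self, Complex.normSq_eq_conj_mul_self]
  have E23' : conj a * b = conj c * d := by
    have := congrArg conj E23
    simpa using this
  have k1 : conj a = lam * d := by
    rw [hac]
    linear_combination (-conj a) * hdet - c * E23'
  have k2 : conj c = lam * b := by
    rw [hac]
    linear_combination (-conj c) * hdet - a * E23'
  have k3 : conj d = lam * a := by
    rw [hdb]
    linear_combination (-conj d) * hdet + b * E23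
  have ha0 : a ≠ 0 := by
    intro ha
    rw [ha, map_zero] at hlam'
    linarith [Complex.normSq_nonneg c]
  have k4 : a = lam ^ 2 * a := by
    have := congrArg conj k1
    rw [Complex.conj_conj, map_mul, Complex.conj_ofReal, k3] at this
    rw [pow_two, mul_assoc]
    exact this
  have k5 : (lam : ℂ) ^ 2 = 1 := by
    have := mul_right_cancel₀ ha0 ((one_mul a).trans k4)
    exact this.symm
  have k6 : lam = 1 := by
    have : lam ^ 2 = 1 := by exact_mod_cast k5
    nlinarith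
  refine ⟨?_, ?_, ?_⟩
  · rw [k1, k6]
    simp
  · have := congrArg conj k2
    rw [Complex.conj_conj, map_mul, Complex.conj_ofReal, k6] at this
    rw [this]
    simp
  · have hcb : normSq c = normSq b := by
      have := congrArg normSq k2
      rw [Complex.normSq_conj, k6] at this
      simpa using this
    rw [← hcb, hlam', k6]

/-- `γ` is a Möbius transformation -/
def IsMob (γ : Equiv.Perm Dsc) : Prop :=
  ∃ a b c d : ℂ, a * d - b * c ≠ 0 ∧ ∀ z : Dsc, c * z + d ≠ 0 ∧ ((γ z : Dsc) : ℂ) = (a * z + b) / (c * z + d)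

/-- the normal form of the Möbius transformations of the disc -/
theorem mob_normal {γ : Equiv.Perm Dsc} (h : IsMob γ) :
    ∃ a b : ℂ, normSq a - normSq b = 1 ∧ ∀ z : Dsc, conj b * z + conj a ≠ 0 ∧ ((γ z : Dsc) : ℂ) = (a * z + b) / (conj b * z + conj a) := by
  obtain ⟨a0, b0, c0, d0, hD, h⟩ := h
  obtain ⟨κ, hκ⟩ := IsAlgClosed.exists_pow_nat_eq ((a0 * d0 - b0 * c0)⁻¹) two_pos
  have hκ0 : κ ≠ 0 := by
    rintro rfl
    rw [zero_pow two_ne_zero] at hκ
    exact hD (inv_eq_zero.mp hκ.symm)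
  obtain ⟨a, ha⟩ : ∃ a, a = κ * a0 := ⟨_, rfl⟩
  obtain ⟨b, hb⟩ : ∃ b, b = κ * b0 := ⟨_, rfl⟩
  obtain ⟨c, hc⟩ : ∃ c, c = κ * c0 := ⟨_, rfl⟩
  obtain ⟨d, hd⟩ : ∃ d, d = κ * d0 := ⟨_, rfl⟩
  have hdet : a * d - b * c = 1 := by
    have h1 : a * d - b * c = κ ^ 2 * (a0 * d0 - b0 * c0) := by
      rw [ha, hb, hc, hd]
      ring
    rw [h1, hκ, inv_mul_cancel₀ hD]
  have h' : ∀ z : Dsc, c * z + d ≠ 0 ∧ ((γ z : Dsc) : ℂ) = (a * z + b) / (c * z + d) := by
    intro z
    obtain ⟨h1, h2⟩ := h z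
    have e1 : c * z + d = κ * (c0 * z + d0) := by
      rw [hc, hd]
      ring
    have e2 : a * z + b = κ * (a0 * z + b0) := by
      rw [ha, hb]
      ring
    refine ⟨?_, ?_⟩
    · rw [e1]
      exact mul_ne_zero hκ0 h1
    · rw [h2, e1, e2, mul_div_mul_left _ _ hκ0]
  have S1 : ∀ z : ℂ, ‖z‖ < 1 → ‖a * z + b‖ < ‖c * z + d‖ := by
    intro z hz
    obtain ⟨h1, h2⟩ := h' ⟨z, hz⟩
    have h3 := (γ ⟨z, hz⟩).2
    rw [h2, norm_div, div_lt_one (norm_pos_iff.mpr h1)] at h3
    exact h3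
  have S2 : ∀ z : ℂ, ‖z‖ = 1 → ‖a * z + b‖ ≤ ‖c * z + d‖ := by
    intro z hz
    have hcl : IsClosed {z : ℂ | ‖a * z + b‖ ≤ ‖c * z + d‖} := isClosed_le (by fun_prop) (by fun_prop)
    have h1 : closure (Metric.ball (0 : ℂ) 1) ⊆ {z : ℂ | ‖a * z + b‖ ≤ ‖c * z + d‖} := by
      apply closure_minimal _ hcl
      intro w hw
      rw [mem_ball_zero_iff] at hw
      exact (S1 w hw).le
    apply h1
    rw [closure_ball (0 : ℂ) one_ne_zero, mem_closedBall_zero_iff]
    exact hz.le
  have S3 : ∀ z : ℂ, ‖z‖ = 1 → ‖a * z + b‖ = ‖c * z + d‖ := by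
    intro z hz
    refine le_antisymm (S2 z hz) (not_lt.mp fun hlt => ?_)
    have h1 : c * z + d ≠ 0 := norm_pos_iff.mp ((norm_nonneg _).trans_lt hlt)
    have h2 : ‖(a * z + b) / (c * z + d)‖ < 1 := by
      rw [norm_div, div_lt_one (norm_pos_iff.mpr h1)]
      exact hlt
    obtain ⟨h3, h4⟩ := h' (γ.symm ⟨_, h2⟩)
    rw [Equiv.apply_symm_apply] at h4
    have h5 : z = (γ.symm ⟨_, h2⟩ : Dsc).1 := by
      rw [div_eq_div_iff h1 h3] at h4
      linear_combination h4 - (z - (γ.symm ⟨_, h2⟩ : Dsc).1) * hdet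
    have h6 := (γ.symm ⟨_, h2⟩ : Dsc).2
    rw [← h5, hz] at h6
    exact lt_irrefl _ h6
  have S0 : ‖b‖ < ‖d‖ := by
    have := S1 0 (by simp)
    simpa using this
  obtain ⟨r1, r2, r3⟩ := su_of_norm hdet S3 S0
  rw [r1, r2] at h'
  exact ⟨a, b, r3, h'⟩

lemma ci_div {P Q : ℂ} (hP : P ≠ 0) : ci (Q / P) = I * (P + Q) / (P - Q) := by
  have h1 : 1 - Q / P = (P - Q) / P := by rw [eq_div_iff hP, sub_mul, one_mul, div_mul_cancel₀ _ hP]
  have h2 : 1 + Q / P = (P + Q) / P := by rw [eq_div_iff hP, add_mul, one_mul, div_mul_cancel₀ _ hP]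
  unfold ci
  rw [h1, h2, ← mul_div_assoc, div_div_div_cancel_right₀ hP]

lemma conj_re_im (a : ℂ) : conj a = (a.re : ℂ) - a.im * I := by
  apply Complex.ext <;> simp

lemma alg7 (p q r s w : ℂ) : ((r - s * I) * w + (p - q * I)) - ((p + q * I) * w + (r + s * I)) = -(q + s) * (I * (1 + w)) + (p - r) * (1 - w) := by
  ring

lemma alg8 (p q r s w : ℂ) : I * (((r - s * I) * w + (p - q * I)) + ((p + q * I) * w + (r + s * I))) = (p + r) * (I * (1 + w)) + (q - s) * (1 - w) := by
  linear_combination ((q - s) * (w - 1)) * Complex.I_mul_I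

/-- every Möbius transformation of the disc comes from `SL(2, ℝ)` -/
theorem mob_sl {γ : Equiv.Perm Dsc} (h : IsMob γ) : ∃ g : SL(2, ℝ), ∀ z : ℍ, eD (g • z) = γ (eD z) := by
  obtain ⟨a, b, hab, h⟩ := mob_normal h
  obtain ⟨g, g00, g01, g10, g11⟩ : ∃ g : SL(2, ℝ), g 0 0 = a.re + b.re ∧ g 0 1 = a.im - b.im ∧ g 1 0 = -(a.im + b.im) ∧ g 1 1 = a.re - b.re := by
    refine ⟨⟨!![a.re + b.re, a.im - b.im; -(a.im + b.im), a.re - b.re], ?_⟩, by simp, by simp, by simp, by simp⟩
    rw [Matrix.det_fin_two_of]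
    have h1 : normSq a = a.re * a.re + a.im * a.im := Complex.normSq_apply a
    have h2 : normSq b = b.re * b.re + b.im * b.im := Complex.normSq_apply b
    rw [h1, h2] at hab
    linarith
  refine ⟨g, fun z => ?_⟩
  obtain ⟨w, rfl⟩ := eD.symm.surjective z
  rw [Equiv.apply_symm_apply]
  apply eD.symm.injective
  rw [Equiv.symm_apply_apply]
  apply UpperHalfPlane.ext
  rw [UpperHalfPlane.coe_specialLinearGroup_apply, eD_symm_coe, eD_symm_coe, g00, g01, g10, g11]
  obtain ⟨h1, h2⟩ := h w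
  have h3 := one_sub_ne w.2
  have h4 := one_sub_ne (γ w).2
  rw [h2] at h4
  rw [h2]
  have h5 : 1 - (a * w + b) / (conj b * w + conj a) = ((conj b * w + conj a) - (a * w + b)) / (conj b * w + conj a) := by
    rw [eq_div_iff h1, sub_mul, one_mul, div_mul_cancel₀ _ h1]
  have h6 : (conj b * w + conj a) - (a * w + b) ≠ 0 := by
    intro h0
    rw [h5, h0, zero_div] at h4
    exact h4 rfl
  have h7 : (conj b * w + conj a) - (a * w + b) = ((-(a.im + b.im) : ℝ) : ℂ) * (I * (1 + w)) + ((a.re - b.re : ℝ) : ℂ) * (1 - w) := by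
    have := alg7 a.re a.im b.re b.im w
    rw [← conj_re_im, ← conj_re_im, Complex.re_add_im, Complex.re_add_im] at this
    rw [this]
    push_cast
    ring
  have h8 : I * ((conj b * w + conj a) + (a * w + b)) = ((a.re + b.re : ℝ) : ℂ) * (I * (1 + w)) + ((a.im - b.im : ℝ) : ℂ) * (1 - w) := by
    have := alg8 a.re a.im b.re b.im w
    rw [← conj_re_im, ← conj_re_im, Complex.re_add_im, Complex.re_add_im] at this
    rw [this]
    push_cast
    ring
  have e2 : (((a.re + b.re : ℝ) : ℂ) * ci w + ((a.im - b.im : ℝ) : ℂ)) / (((-(a.im + b.im) : ℝ) : ℂ) * ci w + ((a.re - b.re : ℝ) : ℂ)) =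
      (((a.re + b.re : ℝ) : ℂ) * (I * (1 + w)) + ((a.im - b.im : ℝ) : ℂ) * (1 - w)) /
        (((-(a.im + b.im) : ℝ) : ℂ) * (I * (1 + w)) + ((a.re - b.re : ℝ) : ℂ) * (1 - w)) := by
    rw [← mul_div_mul_right _ _ h3]
    congr 1
    · rw [add_mul, mul_assoc]
      unfold ci
      rw [div_mul_cancel₀ _ h3]
    · rw [add_mul, mul_assoc]
      unfold ci
      rw [div_mul_cancel₀ _ h3]
  rw [ci_div h1, h7, h8, ← e2]
  rfl

end Pool.Agent.H27F
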