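import Pool.Agent.Lib.H27F.DiscMobius
import Pool.Agent.Lib.H27.Geom5
import Pool.Agent.Lib.H27.ModF3

/-!
For MP_b0512f_an: transfer of the theorem on the upper half-plane to the disc.
-/

set_option autoImplicit false

open Complex Filter Topology
open scoped ComplexConjugate MatrixGroups UpperHalfPlane

namespace Pool.Agent.H27F

/-- the action of `SL(2, ℝ)` on the disc -/
noncomputable def rho (g : SL(2, ℝ)) : Equiv.Perm Dsc := eD.symm.trans ((MulAction.toPerm g).trans eD)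

lemma rho_apply (g : SL(2, ℝ)) (w : Dsc) : rho g w = eD (g • eD.symm w) := rfl

lemma rho_mul (g h : SL(2, ℝ)) : rho (g * h) = rho g * rho h := by
  ext w
  simp only [Equiv.Perm.mul_apply, rho_apply, Equiv.symm_apply_apply, mul_smul]

lemma rho_one : rho 1 = 1 := by
  ext w
  simp [rho_apply]

lemma rho_inv (g : SL(2, ℝ)) : rho g⁻¹ = (rho g)⁻¹ := by
  rw [eq_inv_iff_mul_eq_one, ← rho_mul, inv_mul_cancel, rho_one]

/-- the preimage of a group of self-maps of the disc in `SL(2, ℝ)` -/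
def pre (Γ : Subgroup (Equiv.Perm Dsc)) : Subgroup SL(2, ℝ) where
  carrier := {g | rho g ∈ Γ}
  mul_mem' {a b} ha hb := by
    show rho (a * b) ∈ Γ
    rw [rho_mul]
    exact Γ.mul_mem ha hb
  one_mem' := by
    show rho 1 ∈ Γ
    rw [rho_one]
    exact Γ.one_mem
  inv_mem' {a} ha := by
    show rho a⁻¹ ∈ Γ
    rw [rho_inv]
    exact Γ.inv_mem ha

lemma mem_pre {Γ : Subgroup (Equiv.Perm Dsc)} {g : SL(2, ℝ)} : g ∈ pre Γ ↔ rho g ∈ Γ := Iff.rfl

/-- only `1` and `-1` act trivially -/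
lemma eq_of_rho_one {g : SL(2, ℝ)} (h : rho g = 1) : g = 1 ∨ g = -1 := by
  have h1 : ∀ z : ℍ, g • z = z := by
    intro z
    have := congrArg (fun σ : Equiv.Perm Dsc => σ (eD z)) h
    simp only [rho_apply, Equiv.symm_apply_apply, Equiv.Perm.one_apply] at this
    exact eD.injective this
  have h2 : ∀ z : ℍ, ((g 0 0 : ℝ) : ℂ) * z + ((g 0 1 : ℝ) : ℂ) = z * (((g 1 0 : ℝ) : ℂ) * z + ((g 1 1 : ℝ) : ℂ)) := by
    intro z
    have h3 := congrArg UpperHalfPlane.coe (h1 z)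
    rw [UpperHalfPlane.coe_specialLinearGroup_apply] at h3
    have h4 : ((g 1 0 : ℝ) : ℂ) * z + ((g 1 1 : ℝ) : ℂ) ≠ 0 := by
      intro h0
      have h5 : ((g 1 0 : ℝ)) * z.im = 0 := by
        have := congrArg Complex.im h0
        simpa using this
      have h6 : g 1 0 = 0 := (mul_eq_zero.mp h5).resolve_right z.im_pos.ne'
      rw [h6] at h0
      have h7 : g 1 1 = 0 := by
        have := congrArg Complex.re h0
        simpa using this
      have h8 := Matrix.det_fin_two g.1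
      rw [g.2] at h8
      rw [show g.1 1 0 = g 1 0 from rfl, show g.1 1 1 = g 1 1 from rfl, h6, h7] at h8
      simp at h8
    exact (div_eq_iff h4).mp h3
  have k1 := h2 ⟨I, by simp⟩
  have k2 := h2 ⟨2 * I, by simp⟩
  have a1 := congrArg Complex.re k1
  have a2 := congrArg Complex.im k1
  have b1 := congrArg Complex.re k2
  have b2 := congrArg Complex.im k2
  simp at a1 a2 b1 b2
  have hdet := Matrix.det_fin_two g.1
  rw [g.2] at hdet
  rw [show g.1 1 0 = g 1 0 from rfl, show g.1 1 1 = g 1 1 from rfl, show g.1 0 0 = g 0 0 from rfl, show g.1 0 1 = g 0 1 from rfl] at hdet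
  have c1 : g 1 0 = 0 := by linarith
  have c2 : g 0 1 = 0 := by linarith
  rw [c1, c2, a2] at hdet
  have c3 : (g 1 1 - 1) * (g 1 1 + 1) = 0 := by linarith
  rcases mul_eq_zero.mp c3 with h5 | h5
  · left
    have h6 : g 1 1 = 1 := by linarith
    ext i j
    fin_cases i <;> fin_cases j <;> simp [c1, c2, a2, h6]
  · right
    have h6 : g 1 1 = -1 := by linarith
    ext i j
    fin_cases i <;> fin_cases j <;> simp [c1, c2, a2, h6]

lemma finite_fiber (γ : Equiv.Perm Dsc) : (rho ⁻¹' {γ}).Finite := by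
  rcases (rho ⁻¹' {γ}).eq_empty_or_nonempty with h | ⟨g0, hg0⟩
  · rw [h]
    exact Set.finite_empty
  · refine (Set.toFinite ({g0, -g0} : Set SL(2, ℝ))).subset fun g hg => ?_
    have h1 : rho (g0⁻¹ * g) = 1 := by
      rw [rho_mul, rho_inv, Set.mem_singleton_iff.mp hg, Set.mem_singleton_iff.mp hg0, inv_mul_cancel]
    rcases eq_of_rho_one h1 with h2 | h2
    · left
      rw [inv_mul_eq_one] at h2
      exact h2.symm
    · right
      rw [inv_mul_eq_iff_eq_mul] at h2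
      rw [h2]
      simp

/-- the preimage acts properly discontinuously on the upper half-plane -/
theorem pre_proper {Γ : Subgroup (Equiv.Perm Dsc)} (hΓ : ∀ K : Set Dsc, IsCompact K → {γ : Equiv.Perm Dsc | γ ∈ Γ ∧ ∃ z ∈ K, γ z ∈ K}.Finite)
    (K : Set ℍ) (hK : IsCompact K) : {g : SL(2, ℝ) | g ∈ pre Γ ∧ ∃ z ∈ K, g • z ∈ K}.Finite := by
  have h1 := hΓ (eD '' K) (hK.image continuous_eD)
  refine (Set.Finite.preimage' h1 fun γ _ => finite_fiber γ).subset ?_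
  rintro g ⟨hg, z, hz, hgz⟩
  refine ⟨hg, eD z, ⟨z, hz, rfl⟩, g • z, hgz, ?_⟩
  rw [rho_apply, Equiv.symm_apply_apply]

lemma ci_hasDerivAt {w : ℂ} (hw : ‖w‖ < 1) : HasDerivAt ci (2 * I / (1 - w) ^ 2) w := by
  have h1 := one_sub_ne hw
  have h2 : HasDerivAt (fun w : ℂ => I * (1 + w)) I w := by
    simpa using ((hasDerivAt_id w).const_add 1).const_mul I
  have h3 : HasDerivAt (fun w : ℂ => 1 - w) (-1) w := by
    simpa using (hasDerivAt_id w).const_sub 1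
  have h4 := h2.div h3 h1
  have e : (I * (1 - w) - I * (1 + w) * -1) / (1 - w) ^ 2 = 2 * I / (1 - w) ^ 2 := by
    congr 1
    ring
  rw [e] at h4
  exact h4

lemma ci_analyticAt {w : ℂ} (hw : ‖w‖ < 1) : AnalyticAt ℂ ci w := by
  unfold ci
  exact (by fun_prop : AnalyticAt ℂ (fun w : ℂ => I * (1 + w)) w).div (by fun_prop) (one_sub_ne hw)

lemma disc_mem_nhds {w : ℂ} (hw : ‖w‖ < 1) : ∀ᶠ z in 𝓝 w, ‖z‖ < 1 :=
  (isOpen_lt continuous_norm continuous_const).mem_nhds hw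

lemma ci_tendsto {w : ℂ} (hw : ‖w‖ < 1) : Tendsto ci (𝓝[≠] w) (𝓝[≠] (ci w)) := by
  rw [tendsto_nhdsWithin_iff]
  refine ⟨(ci_analyticAt hw).continuousAt.tendsto.mono_left nhdsWithin_le_nhds, ?_⟩
  filter_upwards [self_mem_nhdsWithin, nhdsWithin_le_nhds (disc_mem_nhds hw)] with z hz hz1 h
  apply hz
  have h1 := congrArg cy h
  rw [cy_ci hz1, cy_ci hw] at h1
  exact h1

lemma eventually_nhds_of_nhdsNE {w : ℂ} {p : ℂ → Prop} (h : ∀ᶠ z in 𝓝[≠] w, p z) : ∀ᶠ z in 𝓝[≠] w, ∀ᶠ x in 𝓝 z, p x := by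
  have h1 := eventually_eventually_nhdsWithin.mpr h
  filter_upwards [h1, self_mem_nhdsWithin] with z hz hz1
  rwa [isOpen_compl_singleton.nhdsWithin_eq hz1] at hz

/-- transfer of functions on the half-plane to the disc -/
theorem disc_of_half {Γ : Subgroup (Equiv.Perm Dsc)} (hmob : ∀ γ ∈ Γ, IsMob γ) {f : ℂ → ℂ} (hf : MeromorphicOn f {z : ℂ | 0 < z.im})
    (hnc : ∃ z w : ℍ, AnalyticAt ℂ f (z : ℂ) ∧ AnalyticAt ℂ f (w : ℂ) ∧ f (z : ℂ) ≠ f (w : ℂ))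
    (hinv : ∀ g ∈ pre Γ, ∀ z : ℍ, AnalyticAt ℂ f (z : ℂ) → AnalyticAt ℂ f ((g • z : ℍ) : ℂ) → f ((g • z : ℍ) : ℂ) = f (z : ℂ))
    (hM : ∃ M : ℝ, ∀ z : ℍ, AnalyticAt ℂ f (z : ℂ) → z.im * ‖deriv f (z : ℂ)‖ / (1 + ‖f (z : ℂ)‖ ^ 2) ≤ M) :
    ∃ F : ℂ → ℂ, MeromorphicNFOn F {z : ℂ | ‖z‖ < 1} ∧ (∃ z w : Dsc, AnalyticAt ℂ F z ∧ AnalyticAt ℂ F w ∧ F z ≠ F w) ∧
      (∀ γ ∈ Γ, ∀ z : Dsc, F (γ z : Dsc) = F z) ∧
        ∃ M : ℝ, ∀ z : ℂ, ‖z‖ < 1 → AnalyticAt ℂ F z → (1 - ‖z‖ ^ 2) * ‖deriv F z‖ / (1 + ‖F z‖ ^ 2) ≤ M := by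
  obtain ⟨G, hGd⟩ : ∃ G : ℂ → ℂ, G = f ∘ ci := ⟨_, rfl⟩
  have hG : MeromorphicOn G {z : ℂ | ‖z‖ < 1} := by
    intro w hw
    rw [hGd]
    exact (hf (ci w) (ci_im_pos hw)).comp_analyticAt (ci_analyticAt hw)
  obtain ⟨F, hFd⟩ : ∃ F : ℂ → ℂ, F = toMeromorphicNFOn G {z : ℂ | ‖z‖ < 1} := ⟨_, rfl⟩
  have hF : MeromorphicNFOn F {z : ℂ | ‖z‖ < 1} := by
    rw [hFd]
    exact meromorphicNFOn_toMeromorphicNFOn _ _
  have hFG : ∀ w : ℂ, ‖w‖ < 1 → F =ᶠ[𝓝[≠] w] G := by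
    intro w hw
    rw [hFd]
    exact hG.toMeromorphicNFOn_eq_self_on_nhdsNE hw
  have hD : ∀ w : ℂ, ‖w‖ < 1 → ∀ᶠ z in 𝓝[≠] w, AnalyticAt ℂ f (ci z) := by
    intro w hw
    exact (ci_tendsto hw).eventually (hf (ci w) (ci_im_pos hw)).eventually_analyticAt
  have hFGa : ∀ w : ℂ, ‖w‖ < 1 → AnalyticAt ℂ f (ci w) → F =ᶠ[𝓝 w] G := by
    intro w hw h
    have h1 : AnalyticAt ℂ G w := by
      rw [hGd]
      exact h.comp (ci_analyticAt hw)
    exact ((hF hw).eventuallyEq_nhdsNE_iff_eventuallyEq_nhds h1.meromorphicNFAt).mp (hFG w hw)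
  refine ⟨F, hF, ?_, ?_, ?_⟩
  · obtain ⟨z, w, hz, hw, hne⟩ := hnc
    have key : ∀ z : ℍ, AnalyticAt ℂ f (z : ℂ) → AnalyticAt ℂ F (eD z : Dsc) ∧ F (eD z : Dsc) = f z := by
      intro z hz
      have h0 : ci (eD z : Dsc) = z := ci_cy z.im_pos
      have h1 : AnalyticAt ℂ f (ci (eD z : Dsc)) := by rwa [h0]
      have h2 := hFGa _ (eD z).2 h1
      refine ⟨?_, ?_⟩
      · rw [analyticAt_congr h2, hGd]
        exact h1.comp (ci_analyticAt (eD z).2)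
      · rw [h2.eq_of_nhds, hGd, Function.comp_apply, h0]
    refine ⟨eD z, eD w, (key z hz).1, (key w hw).1, ?_⟩
    rw [(key z hz).2, (key w hw).2]
    exact hne
  · intro γ hγ w
    obtain ⟨a, b, -, hab⟩ := mob_normal (hmob γ hγ)
    obtain ⟨g, hg⟩ := mob_sl (hmob γ hγ)
    have hgΓ : g ∈ pre Γ := by
      rw [mem_pre]
      have : rho g = γ := by
        ext u
        rw [rho_apply, hg, Equiv.apply_symm_apply]
      rw [this]
      exact hγ
    obtain ⟨h, hh⟩ : ∃ h : ℂ → ℂ, h = fun z => (a * z + b) / (conj b * z + conj a) := ⟨_, rfl⟩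
    have hhγ : ∀ z : Dsc, h z = (γ z : Dsc) := by
      intro z
      rw [hh, (hab z).2]
    have hha : AnalyticAt ℂ h (w : ℂ) := by
      rw [hh]
      exact (by fun_prop : AnalyticAt ℂ (fun z : ℂ => a * z + b) (w : ℂ)).div (by fun_prop) (hab w).1
    have hht : Tendsto h (𝓝[≠] (w : ℂ)) (𝓝[≠] ((γ w : Dsc) : ℂ)) := by
      rw [tendsto_nhdsWithin_iff]
      refine ⟨?_, ?_⟩
      · rw [← hhγ]
        exact hha.continuousAt.tendsto.mono_left nhdsWithin_le_nhds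
      · filter_upwards [self_mem_nhdsWithin, nhdsWithin_le_nhds (disc_mem_nhds w.2)] with z hz hz1 h1
        apply hz
        have h2 : ((γ ⟨z, hz1⟩ : Dsc) : ℂ) = (γ w : Dsc) := by
          rw [← hhγ]
          exact h1
        have h3 := γ.injective (Subtype.ext h2)
        exact congrArg Subtype.val h3
    have h1 : MeromorphicNFAt (F ∘ h) (w : ℂ) := by
      apply MeromorphicNFAt.comp_analyticAt _ hha
      rw [hhγ]
      exact hF (γ w).2
    have h2 : F ∘ h =ᶠ[𝓝[≠] (w : ℂ)] F := by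
      filter_upwards [nhdsWithin_le_nhds (disc_mem_nhds w.2), hFG w w.2, hD w w.2, hht.eventually (hFG _ (γ w).2),
        hht.eventually (hD _ (γ w).2)] with z hz hz1 hz2 hz3 hz4
      rw [Function.comp_apply, hz3, hz1, hGd, Function.comp_apply, Function.comp_apply]
      have h3 := hhγ ⟨z, hz⟩
      simp only at h3
      rw [h3] at hz4 ⊢
      have h4 : (γ ⟨z, hz⟩ : Dsc) = eD (g • eD.symm ⟨z, hz⟩) := by
        rw [hg, Equiv.apply_symm_apply]
      have h5 : ci (γ ⟨z, hz⟩ : Dsc) = ((g • eD.symm ⟨z, hz⟩ : ℍ) : ℂ) := by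
        rw [h4]
        exact ci_cy (g • eD.symm ⟨z, hz⟩ : ℍ).im_pos
      rw [h5] at hz4 ⊢
      exact hinv g hgΓ (eD.symm ⟨z, hz⟩) hz2 hz4
    have h3 := ((h1.eventuallyEq_nhdsNE_iff_eventuallyEq_nhds (hF w.2)).mp h2).eq_of_nhds
    rw [Function.comp_apply, hhγ] at h3
    exact h3
  · obtain ⟨M, hM⟩ := hM
    refine ⟨2 * M, fun w hw hFw => ?_⟩
    have hcont : ContinuousAt (fun z : ℂ => (1 - ‖z‖ ^ 2) * ‖deriv F z‖ / (1 + ‖F z‖ ^ 2)) w := by
      have c1 := hFw.continuousAt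
      have c2 := hFw.deriv.continuousAt
      refine ContinuousAt.div ?_ ?_ (by positivity)
      · exact (by fun_prop : ContinuousAt (fun z : ℂ => 1 - ‖z‖ ^ 2) w).mul c2.norm
      · exact continuousAt_const.add (c1.norm.pow 2)
    refine le_of_tendsto (hcont.tendsto.mono_left nhdsWithin_le_nhds : Tendsto _ (𝓝[≠] w) _) ?_
    filter_upwards [nhdsWithin_le_nhds (disc_mem_nhds hw), hD w hw, eventually_nhds_of_nhdsNE (hFG w hw)] with z hz hz1 hz2
    have hz2' : F =ᶠ[𝓝 z] G := hz2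
    rw [hz2'.deriv_eq, hz2'.eq_of_nhds]
    have h1 : HasDerivAt G (deriv f (ci z) * (2 * I / (1 - z) ^ 2)) z := by
      rw [hGd]
      exact hz1.differentiableAt.hasDerivAt.comp z (ci_hasDerivAt hz)
    rw [h1.deriv, hGd, Function.comp_apply]
    have h2 := hM ⟨ci z, ci_im_pos hz⟩ hz1
    have h3 : (UpperHalfPlane.mk (ci z) (ci_im_pos hz)).im = (1 - ‖z‖ ^ 2) / ‖1 - z‖ ^ 2 := ci_im z
    rw [h3] at h2
    simp only at h2
    have h4 : ‖deriv f (ci z) * (2 * I / (1 - z) ^ 2)‖ = ‖deriv f (ci z)‖ * (2 / ‖1 - z‖ ^ 2) := by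
      rw [norm_mul, norm_div, norm_mul, norm_pow, Complex.norm_I]
      simp
    rw [h4]
    have h5 : (1 - ‖z‖ ^ 2) * (‖deriv f (ci z)‖ * (2 / ‖1 - z‖ ^ 2)) / (1 + ‖f (ci z)‖ ^ 2) =
        2 * ((1 - ‖z‖ ^ 2) / ‖1 - z‖ ^ 2 * ‖deriv f (ci z)‖ / (1 + ‖f (ci z)‖ ^ 2)) := by
      ring
    rw [h5]
    linarith

end Pool.Agent.H27F
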