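import Pool.Agent.Lib.H27F.DiscTransfer

/-!
# MP_b0512f_an, Q1, on the unit disc

For every discontinuous group `Γ` of Möbius transformations of the unit disc there is a non-constant meromorphic function on the disc which is automorphic with respect to `Γ` and normal.
-/

set_option autoImplicit false

namespace Pool.Agent.Results.MP_b0512f_an.NormalOnDisc

/-- The unit disc. -/
abbrev Disc : Type := {z : ℂ // ‖z‖ < 1}

/-- The bijection `γ` of the disc onto itself is (the restriction to the disc of) a Möbius transformation `z ↦ (a z + b) / (c z + d)`, `a d - b c ≠ 0`. -/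
def IsMobius (γ : Equiv.Perm Disc) : Prop :=
  ∃ a b c d : ℂ, a * d - b * c ≠ 0 ∧ ∀ z : Disc, c * z + d ≠ 0 ∧ ((γ z : Disc) : ℂ) = (a * z + b) / (c * z + d)

/-- `Γ` is a discontinuous group of Möbius transformations of the disc: its elements are Möbius transformations mapping the disc onto itself, and it acts properly discontinuously on the disc (for every compact subset `K` of the disc
only finitely many `γ ∈ Γ` satisfy `γ K ∩ K ≠ ∅`). -/
structure IsDiscontinuousGroup (Γ : Subgroup (Equiv.Perm Disc)) : Prop where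
  mobius : ∀ γ ∈ Γ, IsMobius γ
  discontinuous : ∀ K : Set Disc, IsCompact K → {γ : Equiv.Perm Disc | γ ∈ Γ ∧ ∃ z ∈ K, γ z ∈ K}.Finite

/-- `f` is a meromorphic function on the disc, not constant (`MeromorphicNFOn`: meromorphic, analytic off its poles, with the value `0` at the poles by convention). -/
def IsNonconstantMeromorphic (f : ℂ → ℂ) : Prop :=
  MeromorphicNFOn f {z : ℂ | ‖z‖ < 1} ∧ ∃ z w : Disc, AnalyticAt ℂ f z ∧ AnalyticAt ℂ f w ∧ f z ≠ f w

/-- `f` is automorphic with respect to `Γ`: `f ∘ γ = f` on the disc for every `γ ∈ Γ`. -/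
def IsAutomorphic (Γ : Subgroup (Equiv.Perm Disc)) (f : ℂ → ℂ) : Prop := ∀ γ ∈ Γ, ∀ z : Disc, f (γ z : Disc) = f z

/-- `f` is normal: `(1 - |z|²) |f'(z)| / (1 + |f(z)|²)` is bounded on the disc off the poles of `f` (then it is bounded everywhere, as its values at the poles are defined by continuous extension). -/
def IsNormal (f : ℂ → ℂ) : Prop :=
  ∃ M : ℝ, ∀ z : ℂ, ‖z‖ < 1 → AnalyticAt ℂ f z → (1 - ‖z‖ ^ 2) * ‖deriv f z‖ / (1 + ‖f z‖ ^ 2) ≤ M

/-- **Answer to Q1 (positive).** Every discontinuous group of Möbius transformations of the unit disc admits a non-constant meromorphic function on the disc that is both automorphic with respect to the group and normal. -/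
theorem result (Γ : Subgroup (Equiv.Perm Disc)) (hΓ : IsDiscontinuousGroup Γ) :
    ∃ f : ℂ → ℂ, IsNonconstantMeromorphic f ∧ IsAutomorphic Γ f ∧ IsNormal f := by
  obtain ⟨d⟩ := Pool.Agent.Lib.H27.exists_data (Pool.Agent.H27F.pre Γ)
    (fun K hK => Pool.Agent.H27F.pre_proper (Γ := Γ) hΓ.discontinuous K hK)
  obtain ⟨f, h1, h2, h3, h4⟩ := Pool.Agent.Lib.H27.normal_of_data d
  obtain ⟨F, e1, e2, e3, e4⟩ := Pool.Agent.H27F.disc_of_half (Γ := Γ) hΓ.mobius h1 h2 h3 h4
  exact ⟨F, ⟨e1, e2⟩, e3, e4⟩

end Pool.Agent.Results.MP_b0512f_an.NormalOnDisc
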