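import Pool.Agent.Lib.H27F.Trpc

/-!
# MP_aa1569_an, Q1: the restricted and the full tracial Rokhlin property with comparison agree

The answer to Q1 is no (the negated form holds), in the following strong form: for every simple unital C*-algebra (separable or not, also finite-dimensional), every compact group (second countable or not) and every action (no continuity is
needed), rTRPC and TRPC are equivalent.
-/

set_option autoImplicit false

open Filter Topology
open scoped ComplexOrder

universe u v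

namespace Pool.Agent.Results.MP_aa1569_an.RestrictedIsFull

/-- The unital C*-algebra `A` is simple: `A ≠ 0`, and its only closed two-sided ideals are `0` and `A`. -/
def IsSimpleCStar (A : Type u) [CStarAlgebra A] : Prop := Nontrivial A ∧ ∀ I : TwoSidedIdeal A, IsClosed {a : A | a ∈ I} → I = ⊥ ∨ I = ⊤

/-- The fixed point algebra `A ^ α` (as a set) of the action `α` of `G` on `A` by automorphisms. -/
def fixedPts {A : Type u} [CStarAlgebra A] {G : Type v} [Group G] (α : G →* (A ≃⋆ₐ[ℂ] A)) : Set A := {a | ∀ g, α g a = a}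

/-- Cuntz subequivalence `a ≾_B b` in `B`: some sequence `v n ∈ B` satisfies `v n * b * (v n)^* → a`. -/
def CuntzLE {A : Type u} [CStarAlgebra A] (B : Set A) (a b : A) : Prop :=
  ∃ v : ℕ → A, (∀ n, v n ∈ B) ∧ Tendsto (fun n => v n * b * star (v n)) atTop (𝓝 a)

/-- Left translation on `C(G)`: `(Lt g f)(h) = f (g⁻¹ h)`. -/
noncomputable def Lt {G : Type v} [Group G] [TopologicalSpace G] [IsTopologicalGroup G] (g : G) (f : C(G, ℂ)) : C(G, ℂ) :=
  f.comp ⟨fun h => g⁻¹ * h, continuous_const_mul g⁻¹⟩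

section

variable {A : Type u} [CStarAlgebra A] [PartialOrder A] [StarOrderedRing A] {G : Type v} [Group G] [TopologicalSpace G] [IsTopologicalGroup G] [CompactSpace G]

/-- The completely positive map `φ` is `(F, S, ε)`-approximately equivariant central multiplicative. (The last condition says that the supremum over `g` is less than `ε`.) -/
structure ApproxECM (α : G →* (A ≃⋆ₐ[ℂ] A)) (F : Finset A) (S : Finset C(G, ℂ)) (ε : ℝ) (φ : CompletelyPositiveMap C(G, ℂ) A) : Prop where
  mult : ∀ f ∈ S, ∀ f' ∈ S, ‖φ (f * f') - φ f * φ f'‖ < ε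
  central : ∀ f ∈ S, ∀ a ∈ F, ‖φ f * a - a * φ f‖ < ε
  equivariant : ∀ f ∈ S, ∃ δ < ε, ∀ g : G, ‖φ (Lt g f) - α g (φ f)‖ ≤ δ

/-- `p` is a projection in `A ^ α`, `φ : C(G) → p A p` is unital and completely positive, and the conditions 1 to 4 hold. -/
structure Good (α : G →* (A ≃⋆ₐ[ℂ] A)) (F : Finset A) (S : Finset C(G, ℂ)) (ε : ℝ) (x y p : A) (φ : CompletelyPositiveMap C(G, ℂ) A) : Prop where
  proj : IsStarProjection p
  fixed : p ∈ fixedPts α
  unital : φ 1 = p
  corner : ∀ f, p * φ f * p = φ f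
  c1 : ApproxECM α F S ε φ
  c2 : CuntzLE Set.univ (1 - p) x
  c3 : CuntzLE (fixedPts α) (1 - p) y
  c4 : CuntzLE (fixedPts α) (1 - p) p

/-- Restricted tracial Rokhlin property with comparison. -/
def RTRPC (α : G →* (A ≃⋆ₐ[ℂ] A)) : Prop :=
  ∀ (F : Finset A) (S : Finset C(G, ℂ)) (ε : ℝ), 0 < ε → ∀ x : A, 0 ≤ x → x ≠ 0 → ∀ y ∈ fixedPts α, 0 ≤ y → y ≠ 0 →
    ∃ (p : A) (φ : CompletelyPositiveMap C(G, ℂ) A), Good α F S ε x y p φ

/-- Tracial Rokhlin property with comparison. -/
def TRPC (α : G →* (A ≃⋆ₐ[ℂ] A)) : Prop :=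
  ∀ (F : Finset A) (S : Finset C(G, ℂ)) (ε : ℝ), 0 < ε → ∀ x : A, 0 ≤ x → x ≠ 0 → ∀ y ∈ fixedPts α, 0 ≤ y → y ≠ 0 →
    ∃ (p : A) (φ : CompletelyPositiveMap C(G, ℂ) A), Good α F S ε x y p φ ∧ (‖x‖ = 1 → 1 - ε < ‖p * x * p‖)

end

/-- **Answer to Q1 (negative).** For every simple unital C*-algebra `A`, every compact group `G` and every action `α` of `G` on `A`, the restricted tracial Rokhlin property with comparison implies the full one, so that the two
are equivalent. -/
theorem result (A : Type u) [CStarAlgebra A] [PartialOrder A] [StarOrderedRing A] (hA : IsSimpleCStar A)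
    (G : Type v) [Group G] [TopologicalSpace G] [IsTopologicalGroup G] [CompactSpace G] (α : G →* (A ≃⋆ₐ[ℂ] A)) : RTRPC α ↔ TRPC α := by
  classical
  obtain ⟨hnt, hA⟩ := hA
  constructor
  · intro hr F S ε hε x hx hx0 y hy hy1 hy0
    by_cases hx1 : ‖x‖ = 1
    · obtain ⟨F', δ, hδ, hkey⟩ := Pool.Agent.H27F.key hA (CStarAlgebra.nonneg_iff_eq_star_mul_self.mp hx) hx1 hε
      obtain ⟨p, φ, h⟩ := hr (F ∪ F') (insert 1 S) (min ε δ) (lt_min hε hδ) x hx hx0 y hy hy1 hy0
      have hp0 : p ≠ 0 := by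
        intro hp
        obtain ⟨v, _, hv⟩ := h.c4
        rw [hp] at hv
        simp only [mul_zero, zero_mul, sub_zero] at hv
        exact one_ne_zero (tendsto_nhds_unique hv tendsto_const_nhds)
      have hp1 : ∀ a ∈ F', ‖p * a - a * p‖ < δ := by
        intro a ha
        have h8 := h.c1.central 1 (Finset.mem_insert_self _ _) a (Finset.mem_union_right _ ha)
        rw [h.unital] at h8
        exact h8.trans_le (min_le_right _ _)
      refine ⟨p, φ, ⟨h.proj, h.fixed, h.unital, h.corner, ⟨?_, ?_, ?_⟩, h.c2, h.c3, h.c4⟩,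
        fun _ => hkey p h.proj.isSelfAdjoint h.proj.isIdempotentElem hp1 hp0⟩
      · intro f hf f' hf'
        exact (h.c1.mult f (Finset.mem_insert_of_mem hf) f' (Finset.mem_insert_of_mem hf')).trans_le (min_le_left _ _)
      · intro f hf a ha
        exact (h.c1.central f (Finset.mem_insert_of_mem hf) a (Finset.mem_union_left _ ha)).trans_le (min_le_left _ _)
      · intro f hf
        obtain ⟨δ', hδ', h'⟩ := h.c1.equivariant f (Finset.mem_insert_of_mem hf)
        exact ⟨δ', hδ'.trans_le (min_le_left _ _), h'⟩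
    · obtain ⟨p, φ, h⟩ := hr F S ε hε x hx hx0 y hy hy1 hy0
      exact ⟨p, φ, h, fun h1 => absurd h1 hx1⟩
  · intro hr F S ε hε x hx hx0 y hy hy1 hy0
    obtain ⟨p, φ, h, -⟩ := hr F S ε hε x hx hx0 y hy hy1 hy0
    exact ⟨p, φ, h⟩

end Pool.Agent.Results.MP_aa1569_an.RestrictedIsFull
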