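import Mathlib

/-!
Lemmas for MP_aa1569_an: in a simple unital C*-algebra, projections which almost commute with enough elements and are different from zero almost preserve the norm of a given positive element.
(Own statement beside the proof of the frozen statement S05752; adapted from Pool/Agent/S05752.lean, with simplicity in the sense of closed ideals.)
-/

set_option autoImplicit false
open Filter Topology TopologicalSpace

namespace Pool.Agent.H27F

lemma norm_proj_le {A : Type*} [CStarAlgebra A] {p : A} (h1 : IsSelfAdjoint p)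
    (h2 : IsIdempotentElem p) : ‖p‖ ≤ 1 := by
  have h3 : ‖p‖ * ‖p‖ = ‖p‖ := by
    have := CStarRing.norm_star_mul_self (x := p)
    rw [h1.star_eq, h2.eq] at this
    exact this.symm
  by_contra hlt
  push Not at hlt
  nlinarith

lemma proj_eq_zero {A : Type*} [CStarAlgebra A] {p : A} (h1 : IsSelfAdjoint p)
    (h2 : IsIdempotentElem p) (h : ‖p‖ < 1) : p = 0 := by
  have h3 : ‖p‖ * ‖p‖ = ‖p‖ := by
    have := CStarRing.norm_star_mul_self (x := p)
    rw [h1.star_eq, h2.eq] at this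
    exact this.symm
  have : ‖p‖ = 0 := by
    by_contra h0
    have : 0 < ‖p‖ := lt_of_le_of_ne (norm_nonneg _) (Ne.symm h0)
    nlinarith
  exact norm_eq_zero.mp this

lemma pow_bound {A : Type*} [CStarAlgebra A] {p x : A} (h1 : IsSelfAdjoint p)
    (h2 : IsIdempotentElem p) {δ : ℝ} (hx : ‖p * x - x * p‖ ≤ δ)
    (hxn : ‖x‖ ≤ 1) (n : ℕ) :
    ‖p * x ^ (n+1) - (p * x * p) ^ (n+1)‖ ≤ (n + 1) * δ := by
  have hp := norm_proj_le h1 h2
  have hδ : 0 ≤ δ := le_trans (norm_nonneg _) hx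
  have hq : ‖p * x * p‖ ≤ 1 := by
    calc ‖p * x * p‖ ≤ ‖p‖ * ‖x‖ * ‖p‖ := (norm_mul_le _ _).trans (by gcongr; exact norm_mul_le _ _)
      _ ≤ 1 * 1 * 1 := by gcongr
      _ = 1 := by norm_num
  have he : ‖p * x - p * x * p‖ ≤ δ := by
    have : p * x - p * x * p = p * (p * x - x * p) := by
      rw [mul_sub, ← mul_assoc, h2.eq, mul_assoc p x p]
    rw [this]
    calc ‖p * (p * x - x * p)‖ ≤ ‖p‖ * ‖p * x - x * p‖ := norm_mul_le _ _
      _ ≤ 1 * δ := by gcongr
      _ = δ := one_mul _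
  induction n with
  | zero => simpa using he
  | succ n ih =>
    have hqp : (p * x * p) ^ (n+1) * p = (p * x * p) ^ (n+1) := by
      rw [pow_succ, mul_assoc, mul_assoc (p * x) p p, h2.eq]
    have key : p * x ^ (n+1+1) - (p * x * p) ^ (n+1+1)
        = (p * x ^ (n+1) - (p * x * p) ^ (n+1)) * x
          + (p * x * p) ^ (n+1) * (p * x - p * x * p) := by
      have e1 : (p * x * p) ^ (n+1) * (p * x) = (p * x * p) ^ (n+1) * x := by
        rw [← mul_assoc, hqp]
      rw [pow_succ x (n+1), pow_succ (p * x * p) (n+1), sub_mul, mul_sub, e1, ← mul_assoc]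
      abel
    have hqn : ‖(p * x * p) ^ (n+1)‖ ≤ 1 := by
      calc ‖(p * x * p) ^ (n+1)‖ ≤ ‖p * x * p‖ ^ (n+1) := norm_pow_le' _ (Nat.succ_pos n)
        _ ≤ 1 := pow_le_one₀ (norm_nonneg _) hq
    rw [key]
    calc _ ≤ ‖(p * x ^ (n+1) - (p * x * p) ^ (n+1)) * x‖
          + ‖(p * x * p) ^ (n+1) * (p * x - p * x * p)‖ := norm_add_le _ _
      _ ≤ ‖(p * x ^ (n+1) - (p * x * p) ^ (n+1))‖ * ‖x‖
          + ‖(p * x * p) ^ (n+1)‖ * ‖(p * x - p * x * p)‖ := by
            gcongr <;> exact norm_mul_le _ _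
      _ ≤ ((n + 1) * δ) * 1 + 1 * δ := by gcongr
      _ = _ := by push_cast; ring

/-- `z` is killed by all projections `p` which almost commute with enough elements and for which
`‖p x p‖ ≤ d`. -/
def Small {A : Type*} [CStarAlgebra A] (x : A) (d : ℝ) (z : A) : Prop :=
  ∀ η : ℝ, 0 < η → ∃ (F : Finset A) (δ : ℝ), 0 < δ ∧ ∀ p : A, IsSelfAdjoint p →
    IsIdempotentElem p → (∀ a ∈ F, ‖p * a - a * p‖ < δ) → ‖p * x * p‖ ≤ d → ‖p * z‖ < η

lemma Small.zero {A : Type*} [CStarAlgebra A] (x : A) (d : ℝ) : Small x d 0 := by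
  intro η hη
  exact ⟨∅, 1, one_pos, fun p _ _ _ _ => by simpa using hη⟩

lemma Small.neg {A : Type*} [CStarAlgebra A] {x : A} {d : ℝ} {z : A} (hz : Small x d z) :
    Small x d (-z) := by
  intro η hη
  obtain ⟨F, δ, hδ, h⟩ := hz η hη
  exact ⟨F, δ, hδ, fun p h1 h2 h3 h4 => by simpa using h p h1 h2 h3 h4⟩

lemma Small.add {A : Type*} [CStarAlgebra A] {x : A} {d : ℝ} {z w : A} (hz : Small x d z)
    (hw : Small x d w) : Small x d (z + w) := by
  classical
  intro η hη
  obtain ⟨F, δ, hδ, h⟩ := hz (η/2) (by positivity)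
  obtain ⟨F', δ', hδ', h'⟩ := hw (η/2) (by positivity)
  refine ⟨F ∪ F', min δ δ', lt_min hδ hδ', fun p h1 h2 h3 h4 => ?_⟩
  have a1 := h p h1 h2 (fun a ha => (h3 a (Finset.mem_union_left _ ha)).trans_le (min_le_left _ _)) h4
  have a2 := h' p h1 h2 (fun a ha => (h3 a (Finset.mem_union_right _ ha)).trans_le (min_le_right _ _)) h4
  rw [mul_add]
  linarith [norm_add_le (p * z) (p * w)]

lemma Small.mul_left {A : Type*} [CStarAlgebra A] {x : A} {d : ℝ} {z : A} (a : A)
    (hz : Small x d z) : Small x d (a * z) := by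
  classical
  intro η hη
  obtain ⟨F, δ, hδ, h⟩ := hz (η / (2 * (‖a‖ + 1))) (by positivity)
  refine ⟨insert a F, min δ (η / (2 * (‖z‖ + 1))), lt_min hδ (by positivity),
    fun p h1 h2 h3 h4 => ?_⟩
  have a1 := h p h1 h2 (fun b hb => (h3 b (Finset.mem_insert_of_mem hb)).trans_le (min_le_left _ _)) h4
  have a2 := (h3 a (Finset.mem_insert_self _ _)).trans_le (min_le_right _ _)
  have : p * (a * z) = (p * a - a * p) * z + a * (p * z) := by noncomm_ring
  rw [this]
  have b1 : ‖(p * a - a * p) * z‖ ≤ (η / (2 * (‖z‖ + 1))) * ‖z‖ :=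
    (norm_mul_le _ _).trans (by gcongr)
  have b2 : ‖a * (p * z)‖ ≤ ‖a‖ * (η / (2 * (‖a‖ + 1))) :=
    (norm_mul_le _ _).trans (by gcongr)
  have c1 : (η / (2 * (‖z‖ + 1))) * ‖z‖ < η / 2 := by
    rw [div_mul_eq_mul_div, div_lt_div_iff₀ (by positivity) (by positivity)]
    nlinarith [norm_nonneg z]
  have c2 : ‖a‖ * (η / (2 * (‖a‖ + 1))) < η / 2 := by
    rw [mul_div_assoc', div_lt_div_iff₀ (by positivity) (by positivity)]
    nlinarith [norm_nonneg a]
  linarith [norm_add_le ((p * a - a * p) * z) (a * (p * z))]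

lemma Small.mul_right {A : Type*} [CStarAlgebra A] {x : A} {d : ℝ} {z : A} (a : A)
    (hz : Small x d z) : Small x d (z * a) := by
  intro η hη
  obtain ⟨F, δ, hδ, h⟩ := hz (η / (‖a‖ + 1)) (by positivity)
  refine ⟨F, δ, hδ, fun p h1 h2 h3 h4 => ?_⟩
  have a1 := h p h1 h2 h3 h4
  rw [← mul_assoc]
  calc ‖p * z * a‖ ≤ ‖p * z‖ * ‖a‖ := norm_mul_le _ _
    _ ≤ (η / (‖a‖ + 1)) * ‖a‖ := by gcongr
    _ < η := by
      rw [div_mul_eq_mul_div, div_lt_iff₀ (by positivity)]
      nlinarith [norm_nonneg a]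

lemma small_cut {A : Type*} [CStarAlgebra A] [Nontrivial A] {x : A} (hx : ∃ b : A, x = star b * b)
    (hx1 : ‖x‖ = 1) {d c : ℝ} (hd : 0 ≤ d) (hdc : d < c) (hc : c < 1) :
    Small x d (cfc (fun t : ℝ => max (t - c) 0) x) := by
  obtain ⟨b, hb⟩ := hx
  have hsa : IsSelfAdjoint x := by rw [hb]; exact IsSelfAdjoint.star_mul_self b
  have hspec : ∀ t ∈ spectrum ℝ x, 0 ≤ t := by rw [hb]; exact spectrum_star_mul_self_nonneg
  have hspec1 : ∀ t ∈ spectrum ℝ x, t ≤ 1 := by
    intro t ht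
    have := spectrum.norm_le_norm_of_mem ht
    rw [hx1] at this
    exact (Real.le_norm_self t).trans this
  have hc0 : 0 < c := lt_of_le_of_lt hd hdc
  intro η hη
  -- choose n with (d/c)^(n+1) < η / 2
  obtain ⟨n, hn⟩ : ∃ n : ℕ, (d / c) ^ n < η / 2 :=
    exists_pow_lt_of_lt_one (by positivity) (by rw [div_lt_one hc0]; exact hdc)
  have hn' : (d / c) ^ (n + 1) < η / 2 := by
    refine lt_of_le_of_lt ?_ hn
    rw [pow_succ]
    have : d / c ≤ 1 := by rw [div_le_one hc0]; exact hdc.le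
    have h0 : 0 ≤ (d / c) ^ n := by positivity
    nlinarith
  -- factorization
  set g : ℝ → ℝ := fun t => max (t - c) 0 / (max t c) ^ (n + 1) with hg
  have hmaxpos : ∀ t : ℝ, 0 < max t c := fun t => lt_of_lt_of_le hc0 (le_max_right _ _)
  have hgcont : Continuous g := by
    rw [hg]
    refine Continuous.div (by fun_prop) (by fun_prop) (fun t => ?_)
    exact (pow_pos (hmaxpos t) _).ne'
  have hfac : cfc (fun t : ℝ => max (t - c) 0) x = x ^ (n + 1) * cfc g x := by
    have e1 : cfc (fun t : ℝ => max (t - c) 0) x = cfc (fun t : ℝ => t ^ (n+1) * g t) x := by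
      apply cfc_congr
      intro t ht
      simp only [hg]
      rcases le_total t c with h | h
      · rw [max_eq_right (by linarith : t - c ≤ 0)]
        simp
      · rw [max_eq_left h, mul_div_cancel₀]
        exact (pow_pos (lt_of_lt_of_le hc0 h) _).ne'
    rw [e1, cfc_mul (fun t : ℝ => t ^ (n+1)) g x (by fun_prop) hgcont.continuousOn,
      cfc_pow_id x (n+1)]
  have hgn : ‖cfc g x‖ ≤ (1 / c) ^ (n + 1) := by
    apply norm_cfc_le (by positivity)
    intro t ht
    simp only [hg]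
    rw [Real.norm_of_nonneg (div_nonneg (le_max_right _ _) (pow_pos (hmaxpos t) _).le), one_div,
      inv_pow, div_eq_mul_inv]
    calc max (t - c) 0 * (max t c ^ (n + 1))⁻¹ ≤ 1 * (c ^ (n + 1))⁻¹ := by
          gcongr
          · exact max_le (by linarith [hspec1 t ht]) (by norm_num)
          · exact le_max_right _ _
      _ = _ := one_mul _
  refine ⟨{x}, η / (2 * ((n + 1) * (1 / c) ^ (n + 1))), by positivity, fun p h1 h2 h3 h4 => ?_⟩
  have h3' := h3 x (Finset.mem_singleton_self x)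
  have hb1 := pow_bound h1 h2 h3'.le hx1.le n
  have hb2 : ‖(p * x * p) ^ (n + 1)‖ ≤ d ^ (n + 1) :=
    (norm_pow_le' _ (Nat.succ_pos n)).trans (by gcongr)
  have hb3 : ‖p * x ^ (n + 1)‖ ≤ d ^ (n + 1) +
      (n + 1) * (η / (2 * ((n + 1) * (1 / c) ^ (n + 1)))) := by
    have := norm_sub_norm_le (p * x ^ (n + 1)) ((p * x * p) ^ (n + 1))
    linarith
  rw [hfac, ← mul_assoc]
  have hnpos : (0:ℝ) < n + 1 := by positivity
  have hcp : (0:ℝ) < (1 / c) ^ (n + 1) := by positivity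
  calc ‖p * x ^ (n + 1) * cfc g x‖ ≤ ‖p * x ^ (n + 1)‖ * ‖cfc g x‖ := norm_mul_le _ _
    _ ≤ (d ^ (n + 1) + (n + 1) * (η / (2 * ((n + 1) * (1 / c) ^ (n + 1))))) * (1 / c) ^ (n + 1) := by
        gcongr
    _ = (d / c) ^ (n + 1) + η / 2 := by
        rw [add_mul, ← mul_pow]
        congr 1
        · congr 1; field_simp
        · field_simp
    _ < η := by linarith

lemma cut_ne_zero {A : Type*} [CStarAlgebra A] [Nontrivial A] {x : A}
    (hx : ∃ b : A, x = star b * b)
    (hx1 : ‖x‖ = 1) {c : ℝ} (hc : c < 1) :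
    (cfc (fun t : ℝ => max (t - c) 0) x) ≠ 0 := by
  obtain ⟨b, hb⟩ := hx
  have hsa : IsSelfAdjoint x := by rw [hb]; exact IsSelfAdjoint.star_mul_self b
  have hspec : ∀ t ∈ spectrum ℝ x, 0 ≤ t := by rw [hb]; exact spectrum_star_mul_self_nonneg
  have h1 : (1:ℝ) ∈ spectrum ℝ x := by
    rcases CStarAlgebra.norm_or_neg_norm_mem_spectrum hsa with h | h
    · rwa [hx1] at h
    · rw [hx1] at h
      have := hspec _ h
      linarith
  intro h0
  have h2 : max ((1:ℝ) - c) 0 ∈ spectrum ℝ (cfc (fun t : ℝ => max (t - c) 0) x) := by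
    rw [cfc_map_spectrum (fun t : ℝ => max (t - c) 0) x hsa (by fun_prop)]
    exact ⟨1, h1, rfl⟩
  rw [h0, spectrum.zero_eq, Set.mem_singleton_iff, max_eq_left (by linarith)] at h2
  linarith

lemma Small.closed {A : Type*} [CStarAlgebra A] (x : A) (d : ℝ) : IsClosed {z : A | Small x d z} := by
  rw [← isSeqClosed_iff_isClosed]
  intro u z hu hz η hη
  rw [Metric.tendsto_atTop] at hz
  obtain ⟨N, hN⟩ := hz (η / 2) (by positivity)
  obtain ⟨F, δ, hδ, h⟩ := hu N (η / 2) (by positivity)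
  refine ⟨F, δ, hδ, fun p h1 h2 h3 h4 => ?_⟩
  have a1 := h p h1 h2 h3 h4
  have a2 := hN N le_rfl
  rw [dist_eq_norm] at a2
  have a3 : p * z = p * u N - p * (u N - z) := by noncomm_ring
  have a4 : ‖p * (u N - z)‖ ≤ ‖u N - z‖ := by
    calc ‖p * (u N - z)‖ ≤ ‖p‖ * ‖u N - z‖ := norm_mul_le _ _
      _ ≤ 1 * ‖u N - z‖ := by gcongr; exact norm_proj_le h1 h2
      _ = _ := one_mul _
  rw [a3]
  linarith [norm_sub_le (p * u N) (p * (u N - z))]

theorem key {A : Type*} [CStarAlgebra A] [Nontrivial A] (hA : ∀ I : TwoSidedIdeal A, IsClosed {a : A | a ∈ I} → I = ⊥ ∨ I = ⊤)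
    {x : A} (hx : ∃ b : A, x = star b * b) (hx1 : ‖x‖ = 1) {ε : ℝ} (hε : 0 < ε) :
    ∃ (F : Finset A) (δ : ℝ), 0 < δ ∧ ∀ p : A, IsSelfAdjoint p → IsIdempotentElem p →
      (∀ a ∈ F, ‖p * a - a * p‖ < δ) → p ≠ 0 → 1 - ε < ‖p * x * p‖ := by
  obtain ⟨ε', hε', hεε', hε'1⟩ : ∃ ε' : ℝ, 0 < ε' ∧ ε' ≤ ε ∧ ε' < 1 :=
    ⟨min ε (1/2), lt_min hε (by norm_num), min_le_left _ _, (min_le_right _ _).trans_lt (by norm_num)⟩
  have h1 : Small x (1 - ε') 1 := by
    let I : TwoSidedIdeal A := TwoSidedIdeal.mk' {z | Small x (1 - ε') z} (Small.zero _ _)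
      (fun h1 h2 => Small.add h1 h2) (fun h => Small.neg h) (fun h => Small.mul_left _ h)
      (fun h => Small.mul_right _ h)
    have hI : ∀ z, z ∈ I ↔ Small x (1 - ε') z := by
      intro z
      simp only [I, TwoSidedIdeal.mem_mk', Set.mem_ofPred_eq]
    have hmem : (cfc (fun t : ℝ => max (t - (1 - ε'/2)) 0) x) ∈ I :=
      (hI _).mpr (small_cut hx hx1 (by linarith) (by linarith) (by linarith))
    have hcl : IsClosed {a : A | a ∈ I} := by
      have h2 : {a : A | a ∈ I} = {z : A | Small x (1 - ε') z} := by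
        ext z
        exact hI z
      rw [h2]
      exact Small.closed _ _
    rcases hA I hcl with h | h
    · exfalso
      rw [h, TwoSidedIdeal.mem_bot] at hmem
      exact cut_ne_zero hx hx1 (by linarith) hmem
    · rw [← hI, h]
      trivial
  obtain ⟨F, δ, hδ, h⟩ := h1 1 one_pos
  refine ⟨F, δ, hδ, fun p hp1 hp2 hp3 hp4 => ?_⟩
  by_contra hcon
  push Not at hcon
  have := h p hp1 hp2 hp3 (by linarith)
  rw [mul_one] at this
  exact hp4 (proj_eq_zero hp1 hp2 this)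

end Pool.Agent.H27F
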